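import Mathlib

set_option autoImplicit false

/-!
# Every divisor of a finite group is a Schützenberger group of some `IG(E)` (MP_316c67_al, Q1)

Let `G`, `K`, `Q` be groups with homomorphisms `α : K → G` and `φ : K → Q` (in the result `K ≤ G`
and `Q = K/L`), and let `S` be the semigroup that consists of

* the wreath product `T` of `K` with the full transformation monoid of `{0,1,2}`,
* the Rees matrix semigroup `D₁` of all maps `c : {0,1,2} → G` with a chosen point `m`
  (the endomorphisms of rank `1` of the free left `G`-act of rank `3`),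
* the analogous semigroup `D₂` for `Q`, and a zero, with `D₁D₂ = D₂D₁ = 0`,

`T` acting on both sides through `α` and `φ`.  In `IG(E(S))` the maximal subgroup of the
`𝒟`-class of an idempotent `e₁ ∈ D₁` is `G`, and if `α` is injective and `φ` is surjective then
for `e₁ ∈ D₁`, `e₂ ∈ D₂` the product `e₁ e₂` is not regular and its Schützenberger group is `Q`.
-/

namespace Pool.Agent.Results.MP_316c67_al.DivisorsRealised

universe u v

/-! ## Definitions used in the statement -/

section Green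

variable {T : Type u} [Semigroup T]

/-- Green's relation `ℛ`: `x` and `y` generate the same principal right ideal `xT¹ = yT¹`. -/
def GreenR (x y : T) : Prop :=
  (∃ s : WithOne T, (x : WithOne T) * s = y) ∧ (∃ s : WithOne T, (y : WithOne T) * s = x)

/-- Green's relation `ℒ`: `x` and `y` generate the same principal left ideal `T¹x = T¹y`. -/
def GreenL (x y : T) : Prop :=
  (∃ s : WithOne T, s * (x : WithOne T) = y) ∧ (∃ s : WithOne T, s * (y : WithOne T) = x)

/-- Green's relation `ℋ`. -/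
def GreenH (x y : T) : Prop := GreenR x y ∧ GreenL x y

/-- Green's relation `𝒟 = ℛ ∘ ℒ`. -/
def GreenD (x y : T) : Prop := ∃ z : T, GreenR x z ∧ GreenL z y

/-- `x` is regular: `x = xyx` for some `y`. -/
def IsReg (x : T) : Prop := ∃ y : T, x * y * x = x

/-- The `ℋ`-class of `x`. -/
def HClass (x : T) : Set T := {y | GreenH x y}

/-- The maximal subgroup of the `𝒟`-class of `x` (the `ℋ`-class of an idempotent `e` in it) is
isomorphic to `G`: there is an injective multiplicative map from `G` onto that `ℋ`-class. -/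
def MaxSubgroupIso (x : T) (G : Type u) [Group G] : Prop :=
  ∃ e : T, e * e = e ∧ GreenD x e ∧
    ∃ f : G → T, Function.Injective f ∧ (∀ a b, f (a * b) = f a * f b) ∧ Set.range f = HClass e

/-- The Schützenberger group `Γ_H` of the `ℋ`-class `H` of `x`: all maps `H → H` of the form
`h ↦ hs` with `s ∈ T¹` (and `Hs ⊆ H`), under composition of maps. -/
def Schutz (x : T) : Submonoid (Function.End (HClass x)) where
  carrier := {π | ∃ s : WithOne T, ∀ h : HClass x,
    (((π : HClass x → HClass x) h : T) : WithOne T) = ((h : T) : WithOne T) * s}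
  one_mem' := ⟨1, fun h => by rw [mul_one]; rfl⟩
  mul_mem' := by
    rintro π ρ ⟨s, hs⟩ ⟨t, ht⟩
    refine ⟨t * s, fun h => ?_⟩
    rw [← mul_assoc, ← ht h]
    exact hs _

end Green

section IG

variable (S : Type u) [Semigroup S]

/-- The idempotents of `S`. -/
abbrev Idem : Type u := {e : S // e * e = e}

variable {S} in
/-- `(e, f)` is a basic pair: `{e, f} ∩ {ef, fe} ≠ ∅`. -/
def IsBasic (e f : Idem S) : Prop :=
  e.1 * f.1 = e.1 ∨ e.1 * f.1 = f.1 ∨ f.1 * e.1 = e.1 ∨ f.1 * e.1 = f.1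

/-- The defining relations of `IG(E_S)`: `e · f = ef` for all basic pairs `(e, f)`. -/
inductive IGRel : FreeSemigroup (Idem S) → FreeSemigroup (Idem S) → Prop
  | basic (e f g : Idem S) (hb : IsBasic e f) (hg : e.1 * f.1 = g.1) :
      IGRel (FreeSemigroup.of e * FreeSemigroup.of f) (FreeSemigroup.of g)

/-- The free idempotent generated semigroup `IG(E_S)` over the biordered set of `S`. -/
def IG : Type u := (conGen (IGRel S)).Quotient

instance : Semigroup (IG S) := inferInstanceAs (Semigroup (conGen (IGRel S)).Quotient)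

variable {S}

/-- The value in `IG(E_S)` of a nonempty word over `E(S)`. -/
def val (w : FreeSemigroup (Idem S)) : IG S := Quotient.mk'' w

/-- The value in `IG(E_S)¹` of the product of a list of words. -/
def lval (ws : List (FreeSemigroup (Idem S))) : WithOne (IG S) :=
  (ws.map (fun w => ((val w : IG S) : WithOne (IG S)))).prod

/-- `ws = [w₁, …, w_m]` is a minimal r-factorisation of `x ∈ IG(E_S)`: `x` is the value of
`w₁ ⋯ w_m`, every `w_i` has a regular value, and whenever the value of `w_i ⋯ w_j` (`i ≤ j`) is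
regular, `i = j`. -/
def IsMinRFact (ws : List (FreeSemigroup (Idem S))) (x : IG S) : Prop :=
  lval ws = x ∧ (∀ w ∈ ws, IsReg (val w)) ∧
    ∀ l v r : List (FreeSemigroup (Idem S)), ws = l ++ v ++ r →
      ∀ y : IG S, lval v = y → IsReg y → v.length = 1

end IG

/-! ## The semigroup -/

section Construction

variable {G K Q : Type u} [Group G] [Group K] [Group Q] (α : K →* G) (φ : K →* Q)

/-- The semigroup `S = T ∪ D₁ ∪ D₂ ∪ {0}`. -/
inductive Sg (α : K →* G) (φ : K →* Q) : Type u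
  | t (s : Fin 3 → Fin 3) (a : Fin 3 → K) : Sg α φ
  | d1 (c : Fin 3 → G) (m : Fin 3) : Sg α φ
  | d2 (c : Fin 3 → Q) (m : Fin 3) : Sg α φ
  | z : Sg α φ

namespace Sg

variable {α φ}

/-- Multiplication of `S`. -/
def mul : Sg α φ → Sg α φ → Sg α φ
  | t s a, t s' a' => t (fun l => s' (s l)) (fun l => a l * a' (s l))
  | t s a, d1 c m => d1 (fun l => α (a l) * c (s l)) m
  | t s a, d2 c m => d2 (fun l => φ (a l) * c (s l)) m
  | d1 c m, t s a => d1 (fun l => c l * α (a m)) (s m)
  | d2 c m, t s a => d2 (fun l => c l * φ (a m)) (s m)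
  | d1 c m, d1 c' m' => d1 (fun l => c l * c' m) m'
  | d2 c m, d2 c' m' => d2 (fun l => c l * c' m) m'
  | _, _ => z

instance : Mul (Sg α φ) := ⟨mul⟩

@[simp] lemma tt (s : Fin 3 → Fin 3) (a : Fin 3 → K) (s' : Fin 3 → Fin 3) (a' : Fin 3 → K) :
    (t s a * t s' a' : Sg α φ) = t (fun l => s' (s l)) (fun l => a l * a' (s l)) := rfl
@[simp] lemma td1 (s : Fin 3 → Fin 3) (a : Fin 3 → K) (c : Fin 3 → G) (m : Fin 3) :
    (t s a * d1 c m : Sg α φ) = d1 (fun l => α (a l) * c (s l)) m := rfl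
@[simp] lemma td2 (s : Fin 3 → Fin 3) (a : Fin 3 → K) (c : Fin 3 → Q) (m : Fin 3) :
    (t s a * d2 c m : Sg α φ) = d2 (fun l => φ (a l) * c (s l)) m := rfl
@[simp] lemma d1t (s : Fin 3 → Fin 3) (a : Fin 3 → K) (c : Fin 3 → G) (m : Fin 3) :
    (d1 c m * t s a : Sg α φ) = d1 (fun l => c l * α (a m)) (s m) := rfl
@[simp] lemma d2t (s : Fin 3 → Fin 3) (a : Fin 3 → K) (c : Fin 3 → Q) (m : Fin 3) :
    (d2 c m * t s a : Sg α φ) = d2 (fun l => c l * φ (a m)) (s m) := rfl
@[simp] lemma d1d1 (c : Fin 3 → G) (m : Fin 3) (c' : Fin 3 → G) (m' : Fin 3) :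
    (d1 c m * d1 c' m' : Sg α φ) = d1 (fun l => c l * c' m) m' := rfl
@[simp] lemma d2d2 (c : Fin 3 → Q) (m : Fin 3) (c' : Fin 3 → Q) (m' : Fin 3) :
    (d2 c m * d2 c' m' : Sg α φ) = d2 (fun l => c l * c' m) m' := rfl
@[simp] lemma d1d2 (c : Fin 3 → G) (m : Fin 3) (c' : Fin 3 → Q) (m' : Fin 3) :
    (d1 c m * d2 c' m' : Sg α φ) = z := rfl
@[simp] lemma d2d1 (c : Fin 3 → Q) (m : Fin 3) (c' : Fin 3 → G) (m' : Fin 3) :
    (d2 c m * d1 c' m' : Sg α φ) = z := rfl
@[simp] lemma zl (x : Sg α φ) : z * x = z := by cases x <;> rfl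
@[simp] lemma zr (x : Sg α φ) : x * z = z := by cases x <;> rfl

instance : Semigroup (Sg α φ) where
  mul_assoc x y w := by
    cases x <;> cases y <;> cases w <;> simp [mul_assoc]

instance [Finite G] [Finite K] [Finite Q] : Finite (Sg α φ) := by
  let f : Sg α φ → ((Fin 3 → Fin 3) × (Fin 3 → K)) ⊕ ((Fin 3 → G) × Fin 3) ⊕
      ((Fin 3 → Q) × Fin 3) ⊕ Unit := fun x => match x with
    | t s a => Sum.inl (s, a)
    | d1 c m => Sum.inr (Sum.inl (c, m))
    | d2 c m => Sum.inr (Sum.inr (Sum.inl (c, m)))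
    | z => Sum.inr (Sum.inr (Sum.inr ()))
  refine Finite.of_injective f ?_
  intro x y h
  cases x <;> cases y <;> simp_all [f]

end Sg

end Construction


/-! ## The rank-one blocks -/

lemma fin_ne (m : Fin 3) : m + 1 ≠ m := by revert m; decide

lemma fin_third (m m' : Fin 3) : ∃ ν : Fin 3, ν ≠ m ∧ ν ≠ m' := by revert m m'; decide

section Rees

variable {H : Type u} [Group H] {A : Type v} [Semigroup A]
  (e : (Fin 3 → H) → Fin 3 → A)
  (he : ∀ (c : Fin 3 → H) (m : Fin 3) (c' : Fin 3 → H) (m' : Fin 3), c m = 1 → c' m' = 1 →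
    c m' * c' m = 1 → e c m * e c' m' = e (fun l => c l * c' m) m')

/-- The element of `A` that represents `(c, m)`. -/
def nf (c : Fin 3 → H) (m : Fin 3) : A :=
  e (fun l => c l * (c (m + 1))⁻¹) (m + 1) * e (Function.update c m 1) m

include he

lemma nf_step1 {c₁ : Fin 3 → H} {ν m : Fin 3} {c₂ c₃ : Fin 3 → H} (h1 : c₁ ν = 1)
    (h2 : c₂ m = 1) (h3 : c₃ m = 1) (h : c₂ ν = c₃ ν) :
    e c₁ ν * e c₂ m = e c₁ ν * e c₃ m := by
  have a1 : e c₁ ν * e (fun l => c₃ l * (c₃ ν)⁻¹) ν = e c₁ ν := by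
    rw [he _ _ _ _ h1 (by simp) (by simp [h1])]
    simp
  have a2 : e (fun l => c₃ l * (c₃ ν)⁻¹) ν * e c₂ m = e c₃ m := by
    rw [he _ _ _ _ (by simp) h2 (by simp [h3, h])]
    simp [h]
  rw [← a2, ← mul_assoc, a1]

lemma nf_step2 {c : Fin 3 → H} {ν ν' m : Fin 3} (h1 : ν ≠ m) (h2 : ν' ≠ m) :
    e (fun l => c l * (c ν)⁻¹) ν * e (Function.update c m 1) m =
      e (fun l => c l * (c ν')⁻¹) ν' * e (Function.update c m 1) m := by
  have a1 : e (fun l => Function.update c m 1 l * (c ν')⁻¹) ν' * e (Function.update c m 1) m =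
      e (Function.update c m 1) m := by
    rw [he _ _ _ _ (by simp [h2]) (by simp) (by simp [h2])]
    simp [h2]
  have a2 : e (fun l => c l * (c ν)⁻¹) ν *
      e (fun l => Function.update c m 1 l * (c ν')⁻¹) ν' = e (fun l => c l * (c ν')⁻¹) ν' := by
    rw [he _ _ _ _ (by simp) (by simp [h2]) (by simp [h1])]
    simp [h1]
  rw [← a2, mul_assoc, a1]

lemma nf_eq {c : Fin 3 → H} {ν m : Fin 3} {c₂ : Fin 3 → H} (h1 : ν ≠ m) (h2 : c₂ m = 1)
    (h3 : c₂ ν = c ν) :
    e (fun l => c l * (c ν)⁻¹) ν * e c₂ m = nf e c m := by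
  have hm := fin_ne m
  rw [nf, ← nf_step2 e he h1 hm]
  exact nf_step1 e he (by simp) h2 (by simp) (by simp [h1, h3])

/-- `nf` extends `e`. -/
lemma nf_of {c : Fin 3 → H} {m : Fin 3} (h : c m = 1) : nf e c m = e c m := by
  have hm := fin_ne m
  rw [nf, he _ _ _ _ (by simp) (by simp) (by simp [h, hm])]
  simp [hm]

lemma nf_mul_gen (c : Fin 3 → H) (m : Fin 3) (c' : Fin 3 → H) (m' : Fin 3) (h : c' m' = 1) :
    nf e c m * e c' m' = nf e (fun l => c l * c' m) m' := by
  by_cases hmm : m' = m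
  · subst hmm
    rw [nf, mul_assoc, he _ _ _ _ (by simp) h (by simp [h])]
    simp [h, nf]
  · obtain ⟨ν, h1, h2⟩ := fin_third m m'
    have e1 := nf_eq e he (c := c) (ν := ν) (m := m)
      (c₂ := Function.update (Function.update (fun _ => c ν) m 1) m' (c' m)⁻¹) h1
      (by simp [Ne.symm hmm]) (by simp [h1, h2])
    rw [← e1, mul_assoc, he _ _ _ _ (by simp [Ne.symm hmm]) h (by simp)]
    rw [← nf_eq e he (c := fun l => c l * c' m) (ν := ν) (m := m')
      (c₂ := fun l => Function.update (Function.update (fun _ => c ν) m 1) m' (c' m)⁻¹ l * c' m)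
      h2 (by simp) (by simp [h1, h2])]
    simp [mul_assoc]

/-- `nf` is multiplicative. -/
lemma nf_mul (c : Fin 3 → H) (m : Fin 3) (c' : Fin 3 → H) (m' : Fin 3) :
    nf e c m * nf e c' m' = nf e (fun l => c l * c' m) m' := by
  have hm := fin_ne m'
  conv_lhs => rw [nf.eq_1 e c' m']
  rw [← mul_assoc, nf_mul_gen e he _ _ _ _ (by simp), nf_mul_gen e he _ _ _ _ (by simp)]
  simp [hm, mul_assoc]

end Rees

/-! ## Calculations in `IG(E(S))` -/

section InIG

variable {G K Q : Type u} [Group G] [Group K] [Group Q] {α : K →* G} {φ : K →* Q}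

open Sg

/-- Induction on elements of `IG(E_S)`. -/
lemma ig_induction {S : Type u} [Semigroup S] {P : IG S → Prop}
    (h1 : ∀ e : Idem S, P (val (FreeSemigroup.of e)))
    (h2 : ∀ u v, P u → P v → P (u * v)) (u : IG S) : P u := by
  refine Quotient.inductionOn' u (fun w => ?_)
  refine FreeSemigroup.recOnMul (C := fun w => P (val w)) w h1 ?_
  intro x y hx hy
  exact h2 _ _ (h1 x) hy

lemma val_mul_val {S : Type u} [Semigroup S] (e f g : Idem S) (hb : IsBasic e f)
    (hg : e.1 * f.1 = g.1) :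
    val (FreeSemigroup.of e) * val (FreeSemigroup.of f) = val (FreeSemigroup.of g) :=
  Quotient.sound' (ConGen.Rel.of _ _ (IGRel.basic e f g hb hg))

open Classical in
/-- The generator of `IG(E(S))` for an idempotent `x ∈ S` (and the zero for other `x`). -/
noncomputable def gen (x : Sg α φ) : IG (Sg α φ) :=
  if h : x * x = x then val (FreeSemigroup.of ⟨x, h⟩) else val (FreeSemigroup.of ⟨z, rfl⟩)

lemma gen_of {x : Sg α φ} (h : x * x = x) : gen x = val (FreeSemigroup.of ⟨x, h⟩) := by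
  rw [gen, dif_pos h]

lemma gen_mul {x y : Sg α φ} (hx : x * x = x) (hy : y * y = y)
    (hb : x * y = x ∨ x * y = y ∨ y * x = x ∨ y * x = y) : gen x * gen y = gen (x * y) := by
  have hxy : (x * y) * (x * y) = x * y := by
    rcases hb with h | h | h | h
    · rw [h, hx]
    · rw [h, hy]
    · rw [mul_assoc, ← mul_assoc y, h, ← mul_assoc, hx]
    · rw [mul_assoc, ← mul_assoc y, h, hy]
  rw [gen_of hx, gen_of hy, gen_of hxy]
  exact val_mul_val _ _ _ hb rfl

lemma idem_d1 {c : Fin 3 → G} {m : Fin 3} (h : c m = 1) : (d1 c m * d1 c m : Sg α φ) = d1 c m := by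
  simp [h]

lemma idem_d2 {c : Fin 3 → Q} {m : Fin 3} (h : c m = 1) : (d2 c m * d2 c m : Sg α φ) = d2 c m := by
  simp [h]

lemma of_idem_d1 {c : Fin 3 → G} {m : Fin 3} (h : (d1 c m * d1 c m : Sg α φ) = d1 c m) :
    c m = 1 := by
  have h' := (Sg.d1.inj h).1
  have := congrFun h' m
  simpa using this

lemma of_idem_d2 {c : Fin 3 → Q} {m : Fin 3} (h : (d2 c m * d2 c m : Sg α φ) = d2 c m) :
    c m = 1 := by
  have h' := (Sg.d2.inj h).1
  have := congrFun h' m
  simpa using this

lemma idem_t {s : Fin 3 → Fin 3} {a : Fin 3 → K} (h1 : ∀ l, s (s l) = s l)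
    (h2 : ∀ l, a (s l) = 1) : (t s a * t s a : Sg α φ) = t s a := by
  simp [h1, h2]

lemma of_idem_t {s : Fin 3 → Fin 3} {a : Fin 3 → K} (h : (t s a * t s a : Sg α φ) = t s a) :
    (∀ l, s (s l) = s l) ∧ (∀ l, a (s l) = 1) := by
  have h' := Sg.t.inj h
  refine ⟨fun l => congrFun h'.1 l, fun l => ?_⟩
  have := congrFun h'.2 l
  simpa using this

/-- The relations between the idempotents of `D₁`. -/
lemma he1 (c : Fin 3 → G) (m : Fin 3) (c' : Fin 3 → G) (m' : Fin 3) (hc : c m = 1)
    (hc' : c' m' = 1) (hcc : c m' * c' m = 1) :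
    (gen (d1 c m) * gen (d1 c' m') : IG (Sg α φ)) = gen (d1 (fun l => c l * c' m) m') := by
  by_cases hmm : m = m'
  · subst hmm
    rw [gen_mul (idem_d1 hc) (idem_d1 hc') (Or.inl (by simp [hc']))]
    simp [hc']
  · let T : Sg α φ := t (fun l => if l = m' then m' else m) (fun _ => 1)
    have hT : T * T = T := idem_t (fun l => by by_cases h : l = m' <;> simp [h, hmm]) (fun _ => rfl)
    have h1 : gen (d1 c m) * gen T = gen (d1 c m) := by
      rw [gen_mul (idem_d1 hc) hT (Or.inl (by simp [T, hmm]))]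
      simp [T, hmm]
    have h2 : gen T * gen (d1 c' m') =
        gen (d1 (fun l => c' (if l = m' then m' else m)) m' : Sg α φ) := by
      rw [gen_mul hT (idem_d1 hc') (Or.inr (Or.inr (Or.inr (by simp [T]))))]
      simp [T]
    have h3 : gen T * gen (d1 (fun l => c l * c' m) m') =
        gen (d1 (fun l => c' (if l = m' then m' else m)) m' : Sg α φ) := by
      rw [gen_mul hT (idem_d1 hcc) (Or.inr (Or.inr (Or.inr (by simp [T]))))]
      have : (T * d1 (fun l => c l * c' m) m' : Sg α φ) =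
          d1 (fun l => c' (if l = m' then m' else m)) m' := by
        simp only [T, td1, map_one, one_mul]
        congr 1
        funext l
        by_cases h : l = m'
        · simp [h, hcc, hc']
        · simp [h, hc]
      rw [this]
    have h4 : (gen (d1 c m) * gen (d1 (fun l => c l * c' m) m') : IG (Sg α φ)) =
        gen (d1 (fun l => c l * c' m) m') := by
      rw [gen_mul (idem_d1 hc) (idem_d1 hcc) (Or.inr (Or.inl (by simp [hc])))]
      simp [hc]
    rw [← h1, mul_assoc, h2, ← h3, ← mul_assoc, h1, h4]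

/-- The relations between the idempotents of `D₂`. -/
lemma he2 (c : Fin 3 → Q) (m : Fin 3) (c' : Fin 3 → Q) (m' : Fin 3) (hc : c m = 1)
    (hc' : c' m' = 1) (hcc : c m' * c' m = 1) :
    (gen (d2 c m) * gen (d2 c' m') : IG (Sg α φ)) = gen (d2 (fun l => c l * c' m) m') := by
  by_cases hmm : m = m'
  · subst hmm
    rw [gen_mul (idem_d2 hc) (idem_d2 hc') (Or.inl (by simp [hc']))]
    simp [hc']
  · let T : Sg α φ := t (fun l => if l = m' then m' else m) (fun _ => 1)
    have hT : T * T = T := idem_t (fun l => by by_cases h : l = m' <;> simp [h, hmm]) (fun _ => rfl)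
    have h1 : gen (d2 c m) * gen T = gen (d2 c m) := by
      rw [gen_mul (idem_d2 hc) hT (Or.inl (by simp [T, hmm]))]
      simp [T, hmm]
    have h2 : gen T * gen (d2 c' m') =
        gen (d2 (fun l => c' (if l = m' then m' else m)) m' : Sg α φ) := by
      rw [gen_mul hT (idem_d2 hc') (Or.inr (Or.inr (Or.inr (by simp [T]))))]
      simp [T]
    have h3 : gen T * gen (d2 (fun l => c l * c' m) m') =
        gen (d2 (fun l => c' (if l = m' then m' else m)) m' : Sg α φ) := by
      rw [gen_mul hT (idem_d2 hcc) (Or.inr (Or.inr (Or.inr (by simp [T]))))]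
      have : (T * d2 (fun l => c l * c' m) m' : Sg α φ) =
          d2 (fun l => c' (if l = m' then m' else m)) m' := by
        simp only [T, td2, map_one, one_mul]
        congr 1
        funext l
        by_cases h : l = m'
        · simp [h, hcc, hc']
        · simp [h, hc]
      rw [this]
    have h4 : (gen (d2 c m) * gen (d2 (fun l => c l * c' m) m') : IG (Sg α φ)) =
        gen (d2 (fun l => c l * c' m) m') := by
      rw [gen_mul (idem_d2 hc) (idem_d2 hcc) (Or.inr (Or.inl (by simp [hc])))]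
      simp [hc]
    rw [← h1, mul_assoc, h2, ← h3, ← mul_assoc, h1, h4]

variable (α φ) in
/-- The element of `IG(E(S))` for `(c, m) ∈ D₁`. -/
noncomputable def N1 (c : Fin 3 → G) (m : Fin 3) : IG (Sg α φ) :=
  nf (fun c m => gen (d1 c m)) c m

variable (α φ) in
/-- The element of `IG(E(S))` for `(c, m) ∈ D₂`. -/
noncomputable def N2 (c : Fin 3 → Q) (m : Fin 3) : IG (Sg α φ) :=
  nf (fun c m => gen (d2 c m)) c m

lemma N1_of {c : Fin 3 → G} {m : Fin 3} (h : c m = 1) : N1 α φ c m = gen (d1 c m) :=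
  nf_of _ he1 h

lemma N2_of {c : Fin 3 → Q} {m : Fin 3} (h : c m = 1) : N2 α φ c m = gen (d2 c m) :=
  nf_of _ he2 h

lemma N1_mul (c : Fin 3 → G) (m : Fin 3) (c' : Fin 3 → G) (m' : Fin 3) :
    N1 α φ c m * N1 α φ c' m' = N1 α φ (fun l => c l * c' m) m' :=
  nf_mul _ he1 c m c' m'

lemma N2_mul (c : Fin 3 → Q) (m : Fin 3) (c' : Fin 3 → Q) (m' : Fin 3) :
    N2 α φ c m * N2 α φ c' m' = N2 α φ (fun l => c l * c' m) m' :=
  nf_mul _ he2 c m c' m'

lemma N1_t (c : Fin 3 → G) (m : Fin 3) {s : Fin 3 → Fin 3} {a : Fin 3 → K}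
    (h1 : ∀ l, s (s l) = s l) (h2 : ∀ l, a (s l) = 1) :
    N1 α φ c m * gen (t s a) = N1 α φ (fun l => c l * α (a m)) (s m) := by
  have e1 : N1 α φ c m = N1 α φ c m * N1 α φ (fun l => α (a l * (a m)⁻¹)) m := by
    rw [N1_mul]; simp
  rw [e1, mul_assoc, N1_of (c := fun l => α (a l * (a m)⁻¹)) (by simp),
    gen_mul (idem_d1 (by simp)) (idem_t h1 h2) (Or.inr (Or.inr (Or.inl (by simp [h2])))),
    d1t, ← N1_of (by simp [h2]), N1_mul]
  simp

lemma N2_t (c : Fin 3 → Q) (m : Fin 3) {s : Fin 3 → Fin 3} {a : Fin 3 → K}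
    (h1 : ∀ l, s (s l) = s l) (h2 : ∀ l, a (s l) = 1) :
    N2 α φ c m * gen (t s a) = N2 α φ (fun l => c l * φ (a m)) (s m) := by
  have e1 : N2 α φ c m = N2 α φ c m * N2 α φ (fun l => φ (a l * (a m)⁻¹)) m := by
    rw [N2_mul]; simp
  rw [e1, mul_assoc, N2_of (c := fun l => φ (a l * (a m)⁻¹)) (by simp),
    gen_mul (idem_d2 (by simp)) (idem_t h1 h2) (Or.inr (Or.inr (Or.inl (by simp [h2])))),
    d2t, ← N2_of (by simp [h2]), N2_mul]
  simp

lemma t_N1 (c : Fin 3 → G) (m : Fin 3) {s : Fin 3 → Fin 3} {a : Fin 3 → K}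
    (h1 : ∀ l, s (s l) = s l) (h2 : ∀ l, a (s l) = 1) :
    gen (t s a) * N1 α φ c m = N1 α φ (fun l => α (a l) * c (s l)) m := by
  have e1 : N1 α φ c m = N1 α φ (fun l => c l * (c (s 0))⁻¹) (s 0) * N1 α φ c m := by
    rw [N1_mul]; simp
  rw [e1, ← mul_assoc, N1_of (c := fun l => c l * (c (s 0))⁻¹) (by simp),
    gen_mul (idem_t h1 h2) (idem_d1 (by simp))
      (Or.inr (Or.inr (Or.inr (by simp [h1, h2])))),
    td1, ← N1_of (by simp [h1, h2]), N1_mul]
  simp [mul_assoc]

lemma t_N2 (c : Fin 3 → Q) (m : Fin 3) {s : Fin 3 → Fin 3} {a : Fin 3 → K}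
    (h1 : ∀ l, s (s l) = s l) (h2 : ∀ l, a (s l) = 1) :
    gen (t s a) * N2 α φ c m = N2 α φ (fun l => φ (a l) * c (s l)) m := by
  have e1 : N2 α φ c m = N2 α φ (fun l => c l * (c (s 0))⁻¹) (s 0) * N2 α φ c m := by
    rw [N2_mul]; simp
  rw [e1, ← mul_assoc, N2_of (c := fun l => c l * (c (s 0))⁻¹) (by simp),
    gen_mul (idem_t h1 h2) (idem_d2 (by simp))
      (Or.inr (Or.inr (Or.inr (by simp [h1, h2])))),
    td2, ← N2_of (by simp [h1, h2]), N2_mul]
  simp [mul_assoc]

end InIG


/-! ## An action that separates the elements we need -/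

section Action

variable {G K Q : Type u} [Group G] [Group K] [Group Q] (α : K →* G) (φ : K →* Q)

/-- `(g, q) ∼ (gk, q')` where `q = kq'`, `k ∈ K`. -/
def yset : Setoid (G × Q) where
  r p p' := ∃ k : K, p'.1 = p.1 * α k ∧ p.2 = φ k * p'.2
  iseqv := by
    refine ⟨fun p => ⟨1, by simp, by simp⟩, ?_, ?_⟩
    · rintro p p' ⟨k, h1, h2⟩
      exact ⟨k⁻¹, by simp [h1], by simp [h2]⟩
    · rintro p p' p'' ⟨k, h1, h2⟩ ⟨k', h3, h4⟩
      exact ⟨k * k', by simp [h1, h3, mul_assoc], by simp [h2, h4, mul_assoc]⟩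

/-- `G ⊗_K Q`. -/
def Y : Type u := Quotient (yset α φ)

variable {α φ}

/-- The class of `(g, q)`. -/
def cl (g : G) (q : Q) : Y α φ := Quotient.mk (yset α φ) (g, q)

/-- Right multiplication by elements of `Q`. -/
def rmul (p : Y α φ) (c : Q) : Y α φ :=
  Quotient.map (fun p : G × Q => (p.1, p.2 * c))
    (by
      rintro p p' ⟨k, h1, h2⟩
      exact ⟨k, h1, by simp [h2, mul_assoc]⟩) p

lemma rmul_cl (g : G) (q c : Q) : rmul (cl g q : Y α φ) c = cl g (q * c) := rfl

lemma rmul_rmul (p : Y α φ) (c c' : Q) : rmul (rmul p c) c' = rmul p (c * c') := by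
  refine Quotient.inductionOn p (fun p => ?_)
  change cl (p.1) (p.2 * c * c') = cl (p.1) (p.2 * (c * c'))
  rw [mul_assoc]

lemma cl_mul (g : G) (k : K) (q : Q) : (cl (g * α k) q : Y α φ) = cl g (φ k * q) :=
  Quotient.sound ⟨k⁻¹, by simp, by simp⟩

lemma cl_inj (hα : Function.Injective α) {g : G} {q q' : Q} (h : (cl g q : Y α φ) = cl g q') :
    q = q' := by
  obtain ⟨k, h1, h2⟩ := Quotient.exact h
  have : α k = 1 := by simpa using h1
  have hk : k = 1 := hα (by rw [this, map_one])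
  simpa [hk] using h2

variable (α φ) in
/-- The set acted upon: `F₁ = G × {0,1,2}`, `(G ⊗_K Q) × {0,1,2}` and a zero. -/
inductive Vs : Type u
  | f1 (g : G) (l : Fin 3) : Vs
  | y (p : Y α φ) (l : Fin 3) : Vs
  | o : Vs

open Sg Vs

/-- The action of the elements of `S` from the right. -/
def sact : Sg α φ → Vs α φ → Vs α φ
  | t s a, f1 g l => f1 (g * α (a l)) (s l)
  | t s a, y p l => y (rmul p (φ (a l))) (s l)
  | d1 c m, f1 g l => f1 (g * c l) m
  | d2 c m, f1 g l => y (cl g (c l)) m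
  | d2 c m, y p l => y (rmul p (c l)) m
  | _, _ => o

lemma sact_o (x : Sg α φ) : sact x o = o := by cases x <;> rfl

lemma sact_mul {x y : Sg α φ}
    (hb : x * y = x ∨ x * y = y ∨ y * x = x ∨ y * x = y) (v : Vs α φ) :
    sact (x * y) v = sact y (sact x v) := by
  cases x <;> cases y <;>
    first
    | (simp only [d1d2, d2d1] at hb
       exfalso
       rcases hb with h | h | h | h <;> simp at h)
    | (cases v <;> simp [sact, mul_assoc, rmul_rmul, rmul_cl, cl_mul])

/-- The homomorphism into the (opposite of the) semigroup of maps. -/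
noncomputable def actHom : FreeSemigroup (Idem (Sg α φ)) →ₙ* (Function.End (Vs α φ))ᵐᵒᵖ :=
  FreeSemigroup.lift (fun e => MulOpposite.op (sact e.1 : Function.End (Vs α φ)))

lemma actHom_rel {w w' : FreeSemigroup (Idem (Sg α φ))} (h : conGen (IGRel (Sg α φ)) w w') :
    actHom w = actHom w' := by
  have : conGen (IGRel (Sg α φ)) ≤ Con.ker (actHom (α := α) (φ := φ)) := by
    rw [Con.conGen_le]
    rintro _ _ ⟨e, f, g, hb, hg⟩
    change actHom _ = actHom _
    rw [map_mul]
    simp only [actHom, FreeSemigroup.lift_of]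
    apply MulOpposite.unop_injective
    funext v
    rw [← hg]
    exact (sact_mul hb v).symm
  exact this h

/-- The action of `IG(E(S))` from the right. -/
noncomputable def act (u : IG (Sg α φ)) (v : Vs α φ) : Vs α φ :=
  Quotient.liftOn' u (fun w => MulOpposite.unop (actHom w))
    (fun _ _ h => by rw [actHom_rel h]) v

lemma act_val (w : FreeSemigroup (Idem (Sg α φ))) (v : Vs α φ) :
    act (val w) v = MulOpposite.unop (actHom w) v := rfl

lemma act_mul (u u' : IG (Sg α φ)) (v : Vs α φ) : act (u * u') v = act u' (act u v) := by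
  refine Quotient.inductionOn₂' u u' (fun w w' => ?_)
  change act (val (w * w')) v = act (val w') (act (val w) v)
  rw [act_val, act_val, act_val, map_mul, MulOpposite.unop_mul]
  rfl

lemma act_of (e : Idem (Sg α φ)) (v : Vs α φ) :
    act (val (FreeSemigroup.of e)) v = sact e.1 v := by
  rw [act_val]
  simp only [actHom, FreeSemigroup.lift_of]
  rfl

lemma act_gen {x : Sg α φ} (h : x * x = x) (v : Vs α φ) : act (gen x) v = sact x v := by
  rw [gen_of h, act_of]

lemma act_o (u : IG (Sg α φ)) : act u o = o := by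
  induction u using ig_induction with
  | h1 e => rw [act_of, sact_o]
  | h2 u v hu hv => rw [act_mul, hu, hv]

lemma act_N1 (c : Fin 3 → G) (m : Fin 3) (v : Vs α φ) :
    act (N1 α φ c m) v = sact (d1 c m) v := by
  have hm := fin_ne m
  rw [N1, nf, act_mul, act_gen (idem_d1 (by simp)), act_gen (idem_d1 (by simp))]
  cases v <;> simp [sact, hm, mul_assoc]

lemma act_N2 (c : Fin 3 → Q) (m : Fin 3) (v : Vs α φ) :
    act (N2 α φ c m) v = sact (d2 c m) v := by
  have hm := fin_ne m
  rw [N2, nf, act_mul, act_gen (idem_d2 (by simp)), act_gen (idem_d2 (by simp))]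
  cases v <;> simp [sact, hm, rmul_cl, rmul_rmul]

/-- `v` is not in `F₁`. -/
def NF : Vs α φ → Prop
  | f1 _ _ => False
  | _ => True

lemma NF_sact (x : Sg α φ) {v : Vs α φ} (h : NF v) : NF (sact x v) := by
  cases x <;> cases v <;> simp_all [NF, sact]

lemma NF_act (u : IG (Sg α φ)) {v : Vs α φ} (h : NF v) : NF (act u v) := by
  induction u using ig_induction generalizing v with
  | h1 e => rw [act_of]; exact NF_sact _ h
  | h2 u v hu hv => rw [act_mul]; exact hv (hu h)

lemma d1_NF (c : Fin 3 → G) (m : Fin 3) {v : Vs α φ} (h : NF v) :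
    act (N1 α φ c m) v = o := by
  rw [act_N1]
  cases v <;> simp_all [NF, sact]

/-- Right multiplication of elements of `D₁`. -/
lemma right_N1 (u : IG (Sg α φ)) (c : Fin 3 → G) (m : Fin 3) :
    (∃ h m', N1 α φ c m * u = N1 α φ (fun l => c l * h) m') ∨
      ∀ v, NF (act (N1 α φ c m * u) v) := by
  induction u using ig_induction generalizing c m with
  | h1 e =>
    obtain ⟨x, hx⟩ := e
    rw [← gen_of hx]
    cases x with
    | t s a =>
      obtain ⟨h1, h2⟩ := of_idem_t hx
      exact Or.inl ⟨_, _, N1_t c m h1 h2⟩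
    | d1 c' m' =>
      rw [← N1_of (of_idem_d1 hx)]
      exact Or.inl ⟨_, _, N1_mul _ _ _ _⟩
    | d2 c' m' =>
      right
      intro v
      rw [act_mul, act_gen hx]
      cases (act (N1 α φ c m) v) <;> simp [sact, NF]
    | z =>
      right
      intro v
      rw [act_mul, act_gen hx]
      cases (act (N1 α φ c m) v) <;> simp [sact, NF]
  | h2 u v hu hv =>
    rw [← mul_assoc]
    rcases hu c m with ⟨h, m', hh⟩ | h
    · rw [hh]
      rcases hv (fun l => c l * h) m' with ⟨h', m'', hh'⟩ | h'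
      · exact Or.inl ⟨h * h', m'', by rw [hh']; simp [mul_assoc]⟩
      · exact Or.inr h'
    · exact Or.inr (fun p => by rw [act_mul]; exact NF_act _ (h p))

/-- Left multiplication of elements of `D₁`. -/
lemma left_N1 (u : IG (Sg α φ)) (c : Fin 3 → G) (m : Fin 3) :
    (∃ c', u * N1 α φ c m = N1 α φ c' m) ∨ ∀ v, act (u * N1 α φ c m) v = o := by
  induction u using ig_induction generalizing c m with
  | h1 e =>
    obtain ⟨x, hx⟩ := e
    rw [← gen_of hx]
    cases x with
    | t s a =>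
      obtain ⟨h1, h2⟩ := of_idem_t hx
      exact Or.inl ⟨_, t_N1 c m h1 h2⟩
    | d1 c' m' =>
      rw [← N1_of (of_idem_d1 hx)]
      exact Or.inl ⟨_, N1_mul _ _ _ _⟩
    | d2 c' m' =>
      right
      intro v
      rw [act_mul, act_gen hx]
      exact d1_NF _ _ (by cases v <;> simp [sact, NF])
    | z =>
      right
      intro v
      rw [act_mul, act_gen hx]
      exact d1_NF _ _ (by cases v <;> simp [sact, NF])
  | h2 u v hu hv =>
    rw [mul_assoc]
    rcases hv c m with ⟨c', hh⟩ | h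
    · rw [hh]
      exact hu c' m
    · exact Or.inr (fun p => by rw [act_mul]; exact h _)

/-- Right multiplication of elements of `D₂`. -/
lemma right_N2 (u : IG (Sg α φ)) (c : Fin 3 → Q) (m : Fin 3) :
    (∃ h m', N2 α φ c m * u = N2 α φ (fun l => c l * h) m') ∨
      ∀ v, act (N2 α φ c m * u) v = o := by
  induction u using ig_induction generalizing c m with
  | h1 e =>
    obtain ⟨x, hx⟩ := e
    rw [← gen_of hx]
    cases x with
    | t s a =>
      obtain ⟨h1, h2⟩ := of_idem_t hx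
      exact Or.inl ⟨_, _, N2_t c m h1 h2⟩
    | d2 c' m' =>
      rw [← N2_of (of_idem_d2 hx)]
      exact Or.inl ⟨_, _, N2_mul _ _ _ _⟩
    | d1 c' m' =>
      right
      intro v
      rw [act_mul, act_gen hx, act_N2]
      cases v <;> simp [sact]
    | z =>
      right
      intro v
      rw [act_mul, act_gen hx]
      cases (act (N2 α φ c m) v) <;> simp [sact]
  | h2 u v hu hv =>
    rw [← mul_assoc]
    rcases hu c m with ⟨h, m', hh⟩ | h
    · rw [hh]
      rcases hv (fun l => c l * h) m' with ⟨h', m'', hh'⟩ | h'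
      · exact Or.inl ⟨h * h', m'', by rw [hh']; simp [mul_assoc]⟩
      · exact Or.inr h'
    · exact Or.inr (fun p => by rw [act_mul, h p, act_o])

end Action


/-! ## The two groups -/

section Final

variable {G K Q : Type u} [Group G] [Group K] [Group Q] {α : K →* G} {φ : K →* Q}

open Sg Vs

lemma greenR_refl {T : Type u} [Semigroup T] (x : T) : GreenR x x :=
  ⟨⟨1, mul_one _⟩, ⟨1, mul_one _⟩⟩

lemma greenL_refl {T : Type u} [Semigroup T] (x : T) : GreenL x x :=
  ⟨⟨1, one_mul _⟩, ⟨1, one_mul _⟩⟩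

lemma greenR_of {T : Type u} [Semigroup T] {x y : T} (s s' : T) (h : x * s = y)
    (h' : y * s' = x) : GreenR x y :=
  ⟨⟨s, by rw [← WithOne.coe_mul, h]⟩, ⟨s', by rw [← WithOne.coe_mul, h']⟩⟩

lemma greenL_of {T : Type u} [Semigroup T] {x y : T} (s s' : T) (h : s * x = y)
    (h' : s' * y = x) : GreenL x y :=
  ⟨⟨s, by rw [← WithOne.coe_mul, h]⟩, ⟨s', by rw [← WithOne.coe_mul, h']⟩⟩

lemma greenR_cases {T : Type u} [Semigroup T] {x y : T} (h : GreenR x y) :
    x = y ∨ ((∃ s, x * s = y) ∧ ∃ s, y * s = x) := by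
  obtain ⟨⟨s, hs⟩, ⟨s', hs'⟩⟩ := h
  cases s with
  | one => left; simpa using hs
  | coe s =>
    cases s' with
    | one => left; simpa using hs'.symm
    | coe s' =>
      right
      refine ⟨⟨s, ?_⟩, ⟨s', ?_⟩⟩
      · rw [← WithOne.coe_mul] at hs; exact WithOne.coe_inj.1 hs
      · rw [← WithOne.coe_mul] at hs'; exact WithOne.coe_inj.1 hs'

lemma greenL_cases {T : Type u} [Semigroup T] {x y : T} (h : GreenL x y) :
    x = y ∨ ((∃ s, s * x = y) ∧ ∃ s, s * y = x) := by
  obtain ⟨⟨s, hs⟩, ⟨s', hs'⟩⟩ := h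
  cases s with
  | one => left; simpa using hs
  | coe s =>
    cases s' with
    | one => left; simpa using hs'.symm
    | coe s' =>
      right
      refine ⟨⟨s, ?_⟩, ⟨s', ?_⟩⟩
      · rw [← WithOne.coe_mul] at hs; exact WithOne.coe_inj.1 hs
      · rw [← WithOne.coe_mul] at hs'; exact WithOne.coe_inj.1 hs'

variable (α φ) in
/-- The element of `D₁` with constant map `g` (at the point `0`). -/
noncomputable def P1 (g : G) : IG (Sg α φ) := N1 α φ (fun _ => g) 0

variable (α φ) in
/-- The element of `D₂` with constant map `q` (at the point `0`). -/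
noncomputable def P2 (q : Q) : IG (Sg α φ) := N2 α φ (fun _ => q) 0

lemma P1_mul (g g' : G) : P1 α φ g * P1 α φ g' = P1 α φ (g * g') := N1_mul _ _ _ _

lemma P2_mul (g g' : Q) : P2 α φ g * P2 α φ g' = P2 α φ (g * g') := N2_mul _ _ _ _

lemma P1_inj : Function.Injective (P1 α φ) := by
  intro g g' h
  have := congrArg (fun u => act u (f1 1 0)) h
  simpa [P1, act_N1, sact] using this

/-- The maximal subgroup of `D₁`. -/
lemma HClass_P1 : HClass (P1 α φ 1) = Set.range (P1 α φ) := by
  ext y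
  constructor
  · rintro ⟨hR, hL⟩
    rcases greenR_cases hR with h | ⟨⟨s, hs⟩, ⟨s', hs'⟩⟩
    · exact ⟨1, h⟩
    rcases greenL_cases hL with h | ⟨⟨r, hr⟩, ⟨r', hr'⟩⟩
    · exact ⟨1, h⟩
    rcases right_N1 s (fun _ => (1 : G)) 0 with ⟨h, m', hh⟩ | h
    · rcases left_N1 r (fun _ => (1 : G)) 0 with ⟨c', hc⟩ | h'
      · have e1 : y = N1 α φ (fun _ => 1 * h) m' := by rw [← hs, P1, hh]
        have e2 : y = N1 α φ c' 0 := by rw [← hr, P1, hc]
        have e3 : m' = 0 := by
          have := congrArg (fun u => act u (f1 1 0)) (e1.symm.trans e2)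
          simp only [act_N1, sact] at this
          exact (Vs.f1.inj this).2
        refine ⟨h, ?_⟩
        rw [e1, e3, P1, one_mul]
      · exfalso
        have h1 := h' (f1 1 0)
        change act (r * P1 α φ 1) (f1 1 0) = o at h1
        rw [hr] at h1
        have h2 : act (P1 α φ 1) (f1 1 0 : Vs α φ) = act s' (act y (f1 1 0)) := by
          rw [← hs', act_mul]
        rw [h1, act_o, P1, act_N1] at h2
        simp [sact] at h2
    · exfalso
      have h1 := h (f1 1 0)
      change NF (act (P1 α φ 1 * s) (f1 1 0)) at h1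
      rw [hs] at h1
      have h2 : NF (act s' (act y (f1 1 0))) := NF_act _ h1
      rw [← act_mul, hs', P1, act_N1] at h2
      exact h2
  · rintro ⟨g, rfl⟩
    refine ⟨greenR_of (P1 α φ g) (P1 α φ g⁻¹) ?_ ?_, greenL_of (P1 α φ g) (P1 α φ g⁻¹) ?_ ?_⟩ <;>
      simp [P1_mul]

variable (α φ) in
/-- The elements `e₁ · q`, `q ∈ Q`. -/
noncomputable def X (q : Q) : IG (Sg α φ) := P1 α φ 1 * P2 α φ q

lemma act_P1P2 (c : Fin 3 → G) (m : Fin 3) (c' : Fin 3 → Q) (m' : Fin 3) (l : Fin 3) (g : G) :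
    act (N1 α φ c m * N2 α φ c' m') (f1 g l) = y (cl (g * c l) (c' m)) m' := by
  rw [act_mul, act_N1, act_N2]; rfl

lemma X_mul (q q' : Q) : X α φ q * P2 α φ q' = X α φ (q * q') := by
  rw [X, mul_assoc, P2_mul, X]

lemma X_inj (hα : Function.Injective α) : Function.Injective (X α φ) := by
  intro q q' h
  have := congrArg (fun u => act u (f1 1 0)) h
  simp only [X, P1, P2, act_P1P2] at this
  exact cl_inj hα (Vs.y.inj this).1

lemma N1_pt (c : Fin 3 → G) (m m' : Fin 3) : N1 α φ c m * gen (t (fun _ => m') (fun _ => 1)) =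
    N1 α φ c m' := by
  rw [N1_t c m (s := fun _ => m') (a := fun _ => 1) (fun _ => rfl) (fun _ => rfl)]
  simp

lemma pt_N2 (c : Fin 3 → Q) (m m' : Fin 3) :
    gen (t (fun _ => m') (fun _ => 1)) * N2 α φ c m = N2 α φ (fun _ => c m') m := by
  rw [t_N2 c m (s := fun _ => m') (a := fun _ => 1) (fun _ => rfl) (fun _ => rfl)]
  simp

/-- The group element `α k` can be moved from `D₁` to `D₂`, where it becomes `φ k`. -/
lemma transfer (k : K) : P1 α φ (α k) * P2 α φ 1 = X α φ (φ k) := by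
  have h1 : P1 α φ (α k) = N1 α φ (fun _ => (1 : G)) 1 *
      gen (t (fun _ => 0) (fun l => if l = 0 then 1 else k)) := by
    rw [N1_t _ _ (s := fun _ => 0) (fun _ => rfl) (fun _ => by simp)]
    simp [P1]
  rw [h1, mul_assoc, P2, t_N2 _ _ (s := fun _ => 0) (fun _ => rfl) (fun _ => by simp),
    ← N1_pt (fun _ => (1 : G)) 1 1, mul_assoc, pt_N2, ← N1_pt (fun _ => (1 : G)) 0 1]
  rw [mul_assoc, pt_N2]
  simp [X, P1, P2]

lemma HClass_X_sub {y : IG (Sg α φ)} (hy : GreenH (X α φ 1) y) : ∃ q, y = X α φ q := by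
  obtain ⟨hR, hL⟩ := hy
  rcases greenR_cases hR with h | ⟨⟨s, hs⟩, ⟨s', hs'⟩⟩
  · exact ⟨1, h.symm⟩
  rcases greenL_cases hL with h | ⟨⟨r, hr⟩, ⟨r', hr'⟩⟩
  · exact ⟨1, h.symm⟩
  have hne : act (X α φ 1) (f1 1 0 : Vs α φ) ≠ o := by
    rw [X, P1, P2, act_P1P2]; simp
  rcases right_N2 s (fun _ => (1 : Q)) 0 with ⟨h, m', hh⟩ | h
  · rcases left_N1 r (fun _ => (1 : G)) 0 with ⟨c', hc⟩ | h'
    · have e1 : y = N1 α φ (fun _ => 1) 0 * N2 α φ (fun _ => 1 * h) m' := by
        rw [← hs, X, mul_assoc, P2, hh, P1]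
      have e2 : y = N1 α φ c' 0 * N2 α φ (fun _ => 1) 0 := by
        rw [← hr, X, ← mul_assoc, P1, hc, P2]
      have e3 : m' = 0 := by
        have := congrArg (fun u => act u (f1 1 0)) (e1.symm.trans e2)
        simp only [act_P1P2] at this
        exact (Vs.y.inj this).2
      refine ⟨h, ?_⟩
      rw [e1, e3, X, P1, P2, one_mul]
    · exfalso
      apply hne
      have h2 : act y (f1 1 0 : Vs α φ) = o := by
        have h3 := h' (f1 1 0)
        change act (r * P1 α φ 1) (f1 1 0) = o at h3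
        rw [← hr, X, ← mul_assoc, act_mul, h3, act_o]
      rw [← hs', act_mul, h2, act_o]
  · exfalso
    apply hne
    have h2 : act y (f1 1 0 : Vs α φ) = o := by
      have h3 := h (act (P1 α φ 1) (f1 1 0))
      change act (P2 α φ 1 * s) _ = o at h3
      rw [← hs, X, mul_assoc, act_mul, h3]
    rw [← hs', act_mul, h2, act_o]

lemma HClass_X (hφ : Function.Surjective φ) (q : Q) : X α φ q ∈ HClass (X α φ 1) := by
  obtain ⟨k, rfl⟩ := hφ q
  refine ⟨greenR_of (P2 α φ (φ k)) (P2 α φ (φ k)⁻¹) ?_ ?_, greenL_of (P1 α φ (α k))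
    (P1 α φ (α k)⁻¹) ?_ ?_⟩
  · simp [X_mul]
  · simp [X_mul]
  · rw [X, ← mul_assoc, P1_mul, mul_one, transfer]
  · rw [← transfer, ← mul_assoc, P1_mul, inv_mul_cancel, X]

/-- Right multiplication by `b⁻¹` as an element of the Schützenberger group. -/
noncomputable def schutzFun (hφ : Function.Surjective φ) (b : Q) : Schutz (X α φ 1) :=
  ⟨(fun h => ⟨h.1 * P2 α φ b⁻¹, by
      obtain ⟨q, hq⟩ := HClass_X_sub h.2
      rw [hq, X_mul]
      exact HClass_X hφ _⟩ : HClass (X α φ 1) → HClass (X α φ 1)),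
    ⟨(P2 α φ b⁻¹ : IG (Sg α φ)), fun h => by rw [← WithOne.coe_mul]⟩⟩

lemma schutzFun_mul (hφ : Function.Surjective φ) (b b' : Q) :
    schutzFun (α := α) hφ (b * b') = schutzFun hφ b * schutzFun hφ b' := by
  apply Subtype.ext
  funext h
  apply Subtype.ext
  change h.1 * P2 α φ (b * b')⁻¹ = h.1 * P2 α φ b'⁻¹ * P2 α φ b⁻¹
  rw [mul_assoc, P2_mul, mul_inv_rev]

lemma schutzFun_inj (hα : Function.Injective α) (hφ : Function.Surjective φ) :
    Function.Injective (schutzFun (α := α) hφ) := by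
  intro b b' h
  have h1 := congrArg (fun f => (f.1 : HClass (X α φ 1) → HClass (X α φ 1))
    ⟨X α φ 1, HClass_X hφ 1⟩) h
  have h2 : X α φ 1 * P2 α φ b⁻¹ = X α φ 1 * P2 α φ b'⁻¹ := congrArg Subtype.val h1
  rw [X_mul, X_mul, one_mul, one_mul] at h2
  exact inv_injective (X_inj hα h2)

lemma schutzFun_surj (hφ : Function.Surjective φ) :
    Function.Surjective (schutzFun (α := α) hφ) := by
  rintro ⟨π, s, hs⟩
  cases s with
  | one =>
    refine ⟨1, ?_⟩
    apply Subtype.ext
    funext h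
    apply Subtype.ext
    change h.1 * P2 α φ 1⁻¹ = _
    obtain ⟨q, hq⟩ := HClass_X_sub h.2
    have h3 : ((π : HClass (X α φ 1) → HClass (X α φ 1)) h).1 = h.1 := by
      have := hs h
      rw [mul_one] at this
      exact WithOne.coe_inj.1 this
    rw [h3, hq, X_mul, inv_one, mul_one]
  | coe u =>
    have hs' : ∀ h : HClass (X α φ 1),
        ((π : HClass (X α φ 1) → HClass (X α φ 1)) h).1 = h.1 * u := by
      intro h
      have := hs h
      rw [← WithOne.coe_mul] at this
      exact WithOne.coe_inj.1 this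
    let x₀ : HClass (X α φ 1) := ⟨X α φ 1, HClass_X hφ 1⟩
    obtain ⟨q, hq⟩ := HClass_X_sub ((π : HClass (X α φ 1) → HClass (X α φ 1)) x₀).2
    rw [hs' x₀] at hq
    change X α φ 1 * u = X α φ q at hq
    have hE : ∃ b, P2 α φ 1 * u = P2 α φ b := by
      rcases right_N2 u (fun _ => (1 : Q)) 0 with ⟨h, m', hh⟩ | h
      · have e1 : N1 α φ (fun _ => 1) 0 * N2 α φ (fun _ => 1 * h) m' =
            N1 α φ (fun _ => 1) 0 * N2 α φ (fun _ => q) 0 := by
          rw [← hh, ← mul_assoc]; exact hq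
        have e3 : m' = 0 := by
          have := congrArg (fun u => act u (f1 1 0)) e1
          simp only [act_P1P2] at this
          exact (Vs.y.inj this).2
        refine ⟨h, ?_⟩
        rw [P2, hh, e3, P2, one_mul]
      · exfalso
        have h3 := h (act (P1 α φ 1) (f1 1 0))
        change act (P2 α φ 1 * u) _ = o at h3
        rw [← act_mul, ← mul_assoc] at h3
        change act (X α φ 1 * u) _ = o at h3
        rw [hq, X, P1, P2, act_P1P2] at h3
        simp at h3
    obtain ⟨b, hb⟩ := hE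
    refine ⟨b⁻¹, ?_⟩
    apply Subtype.ext
    funext h
    apply Subtype.ext
    change h.1 * P2 α φ b⁻¹⁻¹ = _
    obtain ⟨q', hq'⟩ := HClass_X_sub h.2
    rw [hs' h, hq', inv_inv, ← hb]
    have : X α φ q' = X α φ q' * P2 α φ 1 := by rw [X_mul, mul_one]
    rw [← mul_assoc, X_mul, mul_one]

/-- The Schützenberger group of `e₁e₂` is `Q`. -/
noncomputable def schutzEquiv (hα : Function.Injective α) (hφ : Function.Surjective φ) :
    Q ≃* Schutz (X α φ 1) :=
  MulEquiv.ofBijective (⟨schutzFun hφ, schutzFun_mul hφ⟩ : Q →ₙ* Schutz (X α φ 1))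
    ⟨schutzFun_inj hα hφ, schutzFun_surj hφ⟩

/-- `e₁e₂` is not regular. -/
lemma X_not_reg : ¬ IsReg (X α φ 1) := by
  rintro ⟨y, hy⟩
  have hne : act (X α φ 1) (f1 1 0 : Vs α φ) ≠ o := by
    rw [X, P1, P2, act_P1P2]; simp
  apply hne
  rw [← hy, act_mul, X, act_mul (P1 α φ 1) (P2 α φ 1)]
  have h1 : NF (act (P1 α φ 1 * P2 α φ 1 * y) (f1 1 0)) := by
    rw [act_mul]
    apply NF_act
    rw [P1, P2, act_P1P2]
    trivial
  have h2 : act (P1 α φ 1) (act (P1 α φ 1 * P2 α φ 1 * y) (f1 1 0)) = o := d1_NF _ _ h1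
  rw [h2, act_o]

variable (α φ) in
/-- The one-letter word `e₁`. -/
def w1 : FreeSemigroup (Idem (Sg α φ)) := FreeSemigroup.of ⟨d1 (fun _ => 1) 0, idem_d1 rfl⟩

variable (α φ) in
/-- The one-letter word `e₂`. -/
def w2 : FreeSemigroup (Idem (Sg α φ)) := FreeSemigroup.of ⟨d2 (fun _ => 1) 0, idem_d2 rfl⟩

lemma val_w1 : val (w1 α φ) = P1 α φ 1 := by
  rw [P1, N1_of rfl, gen_of (idem_d1 rfl)]; rfl

lemma val_w2 : val (w2 α φ) = P2 α φ 1 := by
  rw [P2, N2_of rfl, gen_of (idem_d2 rfl)]; rfl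

lemma minRFact : IsMinRFact [w1 α φ, w2 α φ] (X α φ 1) := by
  have hl : lval [w1 α φ, w2 α φ] = (X α φ 1 : IG (Sg α φ)) := by
    simp only [lval, List.map_cons, List.map_nil, List.prod_cons, List.prod_nil, mul_one]
    rw [val_w1, val_w2, ← WithOne.coe_mul, X]
  refine ⟨hl, ?_, ?_⟩
  · intro w hw
    simp only [List.mem_cons, List.not_mem_nil, or_false] at hw
    rcases hw with rfl | rfl
    · rw [val_w1]; exact ⟨P1 α φ 1, by simp [P1_mul]⟩
    · rw [val_w2]; exact ⟨P2 α φ 1, by simp [P2_mul]⟩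
  · intro l v r h y hy hreg
    have hlen := congrArg List.length h
    simp only [List.length_cons, List.length_nil, List.length_append] at hlen
    by_contra hne
    have h02 : v.length = 0 ∨ v.length = 2 := by omega
    rcases h02 with h0 | h2
    · rw [List.length_eq_zero_iff] at h0
      subst h0
      simp [lval] at hy
    · have hl0 : l = [] := List.length_eq_zero_iff.1 (by omega)
      have hr0 : r = [] := List.length_eq_zero_iff.1 (by omega)
      subst hl0 hr0
      simp only [List.nil_append, List.append_nil] at h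
      rw [← h, hl] at hy
      rw [← WithOne.coe_inj.1 hy] at hreg
      exact X_not_reg hreg

end Final

/-! ## The result -/

/-- **Theorem (Q1, positive answer).**  For every finite group `G` and all `L ⊴ K ≤ G` there is a
(finite) semigroup `S` with finitely many idempotents, that is, a finite biordered set `E_S`, and
an element `x ∈ IG(E_S)` with a minimal r-factorisation `w₁ ⋯ w_m` such that the maximal subgroup
of `D_{w₁}` or of `D_{w_m}` is isomorphic to `G` (here: the first one) and the Schützenberger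
group of the `ℋ`-class of `x` is isomorphic to `K/L`. -/
theorem result (G : Type u) [Group G] [Finite G] (K : Subgroup G) (L : Subgroup K) [L.Normal] :
    ∃ (S : Type u) (_ : Semigroup S), Finite (Idem S) ∧
      ∃ (x : IG S) (ws : List (FreeSemigroup (Idem S))), IsMinRFact ws x ∧
        ((∃ w ∈ ws.head?, MaxSubgroupIso (val w) G) ∨
          (∃ w ∈ ws.getLast?, MaxSubgroupIso (val w) G)) ∧
        Nonempty (Schutz x ≃* (K ⧸ L)) := by
  refine ⟨Sg K.subtype (QuotientGroup.mk' L), inferInstance, inferInstance,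
    X K.subtype (QuotientGroup.mk' L) 1, [w1 _ _, w2 _ _], minRFact, Or.inl ?_, ?_⟩
  · refine ⟨w1 _ _, rfl, P1 _ _ 1, ?_, ?_, P1 _ _, P1_inj, fun a b => (P1_mul a b).symm,
      HClass_P1.symm⟩
    · rw [P1_mul, one_mul]
    · rw [val_w1]; exact ⟨_, greenR_refl _, greenL_refl _⟩
  · exact ⟨(schutzEquiv K.subtype_injective (QuotientGroup.mk'_surjective L)).symm⟩

end Pool.Agent.Results.MP_316c67_al.DivisorsRealised
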